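import Pool.Agent.Helper83.MM.StmtsB8
import Pool.Agent.Helper44.CM.Interface
import Pool.Agent.Helper77.MM.Ridge

/-! Block B8, row ADP: the inequality of the block B7 gives the input of the reduction layer. -/

open MeasureTheory Set Filter Topology
open scoped ContDiff

namespace Pool.Agent.Helper67.MM

open Pool.Agent.Helper83.MM

variable {n : ℕ}

/-! Partial derivatives and the second derivative -/

theorem pd_pd_eq {f : CM.E n → ℝ} (hf : ContDiff ℝ 2 f) (x : CM.E n) (i j : Fin n) :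
    CM.pd i (CM.pd j f) x = fderiv ℝ (fderiv ℝ f) x (EuclideanSpace.single i (1 : ℝ))
      (EuclideanSpace.single j (1 : ℝ)) := by
  have h1 : Differentiable ℝ (fderiv ℝ f) :=
    (hf.fderiv_right (m := 1) (by norm_num)).differentiable (by norm_num)
  unfold CM.pd
  have h2 : HasFDerivAt (fun y => fderiv ℝ f y (EuclideanSpace.single j (1 : ℝ)))
      ((ContinuousLinearMap.apply ℝ ℝ (EuclideanSpace.single j (1 : ℝ))).comp
        (fderiv ℝ (fderiv ℝ f) x)) x :=
    (ContinuousLinearMap.apply ℝ ℝ (EuclideanSpace.single j (1 : ℝ))).hasFDerivAt.comp x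
      (h1 x).hasFDerivAt
  rw [h2.fderiv]
  rfl

theorem sum_single (v : CM.E n) : ∑ i, v i • EuclideanSpace.single i (1 : ℝ) = v := by
  have := (EuclideanSpace.basisFun (Fin n) ℝ).sum_repr v
  simpa using this

theorem quad_form {f : CM.E n → ℝ} (hf : ContDiff ℝ 2 f) (x v : CM.E n) :
    ∑ i, ∑ j, v i * CM.hess f x i j * v j = fderiv ℝ (fderiv ℝ f) x v v := by
  conv_rhs => rw [← sum_single v]
  simp only [map_sum, map_smul, sum_apply, smul_apply,
    smul_eq_mul, Finset.mul_sum, CM.hess, Matrix.of_apply, pd_pd_eq hf]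
  rw [Finset.sum_comm]
  refine Finset.sum_congr rfl fun i _ => Finset.sum_congr rfl fun j _ => ?_
  ring

/-! Bounded functions -/

theorem H0_mono {K K' : ℝ} (h : K ≤ K') {f : CM.E n → ℝ} (hf : CM.H0 K f) : CM.H0 K' f :=
  ⟨fun x => (hf.1 x).trans h, fun x y => (hf.2 x y).trans (by gcongr)⟩

theorem exists_H0 {f : CM.E n → ℝ} (hf : ContDiff ℝ 1 f) (hc : HasCompactSupport f) :
    ∃ K, CM.H0 K f := by
  obtain ⟨B, hB⟩ := hf.continuous.bounded_above_of_compact_support hc
  obtain ⟨L, hL⟩ := hf.lipschitzWith_of_hasCompactSupport (𝕂 := ℝ) hc (by norm_num)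
  have hB0 : 0 ≤ B := (norm_nonneg _).trans (hB 0)
  have hL0 : (0 : ℝ) ≤ L := L.2
  refine ⟨2 * B + L, fun x => ?_, fun x y => ?_⟩
  · have := hB x
    rw [Real.norm_eq_abs] at this
    linarith
  · have h1 : |f x - f y| ≤ L * dist x y := by
      have := hL.dist_le_mul x y
      rwa [Real.dist_eq] at this
    have h2 : |f x - f y| ≤ 2 * B := by
      have h3 := hB x
      have h4 := hB y
      rw [Real.norm_eq_abs] at h3 h4
      have := abs_sub (f x) (f y)
      linarith
    have hd : 0 ≤ dist x y := dist_nonneg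
    rcases le_total (dist x y) 1 with h | h
    · have h3 : dist x y ≤ Real.sqrt (dist x y) := by
        have h4 : Real.sqrt (dist x y) ≤ 1 := Real.sqrt_le_one.2 h
        nlinarith [Real.mul_self_sqrt hd, Real.sqrt_nonneg (dist x y)]
      have h4 := Real.sqrt_nonneg (dist x y)
      nlinarith [mul_le_mul_of_nonneg_left h3 hL0]
    · have h3 : 1 ≤ Real.sqrt (dist x y) := Real.one_le_sqrt.2 h
      nlinarith

theorem pd_smooth {f : CM.E n → ℝ} (hf : ContDiff ℝ ∞ f) (i : Fin n) :
    ContDiff ℝ ∞ (CM.pd i f) :=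
  (hf.fderiv_right (by simp)).clm_apply contDiff_const

theorem pdl_smooth {f : CM.E n → ℝ} (hf : ContDiff ℝ ∞ f) (l : List (Fin n)) :
    ContDiff ℝ ∞ (CM.pdl l f) := by
  induction l with
  | nil => exact hf
  | cons i l ih => exact pd_smooth ih i

theorem pdl_supp {f : CM.E n → ℝ} (hf : HasCompactSupport f) (l : List (Fin n)) :
    HasCompactSupport (CM.pdl l f) := by
  induction l with
  | nil => exact hf
  | cons i l ih => exact ih.fderiv_apply (𝕜 := ℝ) _

theorem pdl_add_const {f : CM.E n → ℝ} (b : ℝ) (i : Fin n) (l : List (Fin n)) :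
    CM.pdl (i :: l) (fun x => f x + b) = CM.pdl (i :: l) f := by
  induction l generalizing i with
  | nil =>
    funext x
    simp only [CM.pdl, CM.pd]
    rw [fderiv_add_const]
  | cons j l ih =>
    show CM.pd i (CM.pdl (j :: l) (fun x => f x + b)) = CM.pd i (CM.pdl (j :: l) f)
    rw [ih j]

theorem cd2 {f : CM.E n → ℝ} (h : ContDiff ℝ ∞ f) : ContDiff ℝ 2 f := by
  exact_mod_cast contDiff_infty.1 h 2

theorem exists_HB {F : CM.E n → ℝ} (hF : ContDiff ℝ ∞ F) {R b : ℝ}
    (hb : ∀ x, R ≤ ‖x‖ → F x = b) : ∃ K, 1 ≤ K ∧ CM.HB 5 K F := by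
  set G : CM.E n → ℝ := fun x => F x + -b with hG
  have hGs : ContDiff ℝ ∞ G := hF.add contDiff_const
  have hGc : HasCompactSupport G := by
    refine HasCompactSupport.intro (isCompact_closedBall (0 : CM.E n) R) fun x hx => ?_
    simp only [Metric.mem_closedBall, dist_zero_right, not_le] at hx
    simp only [hG, hb x hx.le]
    ring
  have hFG : F = fun x => G x + b := by
    funext x
    simp [hG]
  have h1 : ∀ l : List (Fin n), ∃ K, CM.H0 K (CM.pdl l F) := by
    intro l
    have h0 : ∀ l, ∃ K, CM.H0 K (CM.pdl l G) := fun l =>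
      exists_H0 ((pdl_smooth hGs l).of_le (by simp)) (pdl_supp hGc l)
    cases l with
    | nil =>
      obtain ⟨K, hK⟩ := h0 []
      refine ⟨K + |b|, fun x => ?_, fun x y => ?_⟩
      · rw [hFG]
        have h2 := hK.1 x
        simp only [CM.pdl] at h2 ⊢
        have := abs_add_le (G x) b
        linarith
      · have h2 := hK.2 x y
        simp only [CM.pdl] at h2 ⊢
        have h3 : F x - F y = G x - G y := by simp [hG]
        rw [h3]
        have h4 : 0 ≤ |b| * Real.sqrt (dist x y) := by positivity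
        linarith
    | cons i l =>
      obtain ⟨K, hK⟩ := h0 (i :: l)
      refine ⟨K, ?_⟩
      rw [hFG, pdl_add_const]
      exact hK
  choose K hK using h1
  have hfin : {l : List (Fin n) | l.length ≤ 5}.Finite := List.finite_length_le (Fin n) 5
  set s : Finset (List (Fin n)) := hfin.toFinset with hs
  refine ⟨1 + ∑ l ∈ s, |K l|, by
    have := Finset.sum_nonneg (fun l (_ : l ∈ s) => abs_nonneg (K l))
    linarith, by exact_mod_cast contDiff_infty.1 hF 5, fun l hl => ?_⟩
  refine H0_mono ?_ (hK l)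
  have hl' : l ∈ s := by simpa [hs] using hl
  have h2 := Finset.single_le_sum (fun l (_ : l ∈ s) => abs_nonneg (K l)) hl'
  have h3 := le_abs_self (K l)
  linarith

theorem qn_smooth : ContDiff ℝ ∞ (CM.qn (n := n)) :=
  (contDiff_norm_sq ℝ).div_const 2

theorem qn_eq : (CM.qn (n := n)) = fun x => (1 : ℝ) / 2 * ‖x‖ ^ 2 := by
  funext x
  simp only [CM.qn]
  ring

theorem st_star (h : CM.ST_STAR) : ST_STAR := by
  intro k N Ψ c R b hc hsm hev hcv hfar hlow σ
  set F : CM.E k → ℝ := fun x => SS Ψ x - CM.qn x with hF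
  have hSS : ContDiff ℝ ∞ (SS Ψ) := by
    have : SS Ψ = fun x => ∑ i, Ψ i x := rfl
    rw [this]
    exact ContDiff.sum fun i _ => hsm i
  have hFs : ContDiff ℝ ∞ F := hSS.sub qn_smooth
  have hFb : ∀ x, R ≤ ‖x‖ → F x = b := by
    intro x hx
    simp only [hF, hfar x hx, CM.qn]
    ring
  obtain ⟨K, hK1, hK⟩ := exists_HB hFs hFb
  have h2 : ∀ i, ContDiff ℝ 2 (Ψ i) := fun i => cd2 (hsm i)
  have hfS : fderiv ℝ (SS Ψ) = fun x => ∑ i, fderiv ℝ (Ψ i) x := by
    funext x
    have : SS Ψ = fun x => ∑ i, Ψ i x := rfl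
    rw [this, fderiv_fun_sum fun i _ => ((hsm i).differentiable (by simp)) x]
  have hfSS : ∀ x y z : E k, fderiv ℝ (fderiv ℝ (SS Ψ)) x y z
      = ∑ i, fderiv ℝ (fderiv ℝ (Ψ i)) x y z := by
    intro x y z
    rw [hfS, fderiv_fun_sum fun i _ =>
      ((((hsm i).fderiv_right (m := ∞) (by simp)).differentiable (by simp)) x)]
    simp [sum_apply]
  have hhess : ∀ x, 1 + CM.hess F x = CM.hess (SS Ψ) x := by
    intro x
    ext i j
    have hS2 : ContDiff ℝ 2 (SS Ψ) := cd2 hSS
    have hF2 : ContDiff ℝ 2 F := cd2 hFs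
    have hq2 : ContDiff ℝ 2 (CM.qn (n := k)) := cd2 qn_smooth
    simp only [CM.hess, Matrix.add_apply, Matrix.of_apply]
    rw [pd_pd_eq hF2, pd_pd_eq hS2]
    have e1 : fderiv ℝ F = fun x => fderiv ℝ (SS Ψ) x - fderiv ℝ CM.qn x := by
      funext x
      exact fderiv_fun_sub ((hSS.differentiable (by simp)) x)
        ((qn_smooth.differentiable (by simp)) x)
    rw [e1, fderiv_fun_sub (((hSS.fderiv_right (m := ∞) (by simp)).differentiable (by simp)) x)
      (((qn_smooth.fderiv_right (m := ∞) (by simp)).differentiable (by simp)) x)]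
    have e2 := Pool.Agent.Helper77.MM.quad_fderiv2 (k := k) 1 x
      (EuclideanSpace.single i (1 : ℝ)) (EuclideanSpace.single j (1 : ℝ))
    rw [← qn_eq] at e2
    simp only [sub_apply, e2]
    rw [Matrix.one_apply]
    by_cases hij : i = j
    · subst hij
      simp
    · simp [hij, EuclideanSpace.inner_single_left]
  have hquad : ∀ (f : CM.E k → ℝ) (_ : ContDiff ℝ 2 f) (x : CM.E k) (v : Fin k → ℝ),
      ∑ i, ∑ j, v i * CM.hess f x i j * v j
        = fderiv ℝ (fderiv ℝ f) x (WithLp.toLp 2 v) (WithLp.toLp 2 v) := by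
    intro f hf x v
    have := quad_form hf x (WithLp.toLp 2 v)
    simpa using this
  have hpsd : ∀ a x, CM.LB 0 (CM.hess (Ψ a) x) := by
    intro a x v
    rw [hquad (Ψ a) (h2 a) x v, zero_mul]
    exact Pool.Agent.Helper77.MM.fderiv2_nonneg (hsm a) (hcv a) _ _
  have hFOK : CM.FOK (min c 1) K (max R 1) F := by
    refine ⟨lt_min hc one_pos, min_le_right _ _, hK1, le_max_right _ _, fun x => ?_, hK,
      fun x y hx hy => ?_, fun x v => ?_⟩
    · simp only [hF, SS, CM.qn, norm_neg, hev]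
    · rw [hFb x ((le_max_left _ _).trans hx), hFb y ((le_max_left _ _).trans hy)]
    · rw [hhess x, hquad _ (cd2 hSS) x v, hfSS]
      have h3 := hlow x (WithLp.toLp 2 v)
      rw [EuclideanSpace.real_norm_sq_eq] at h3
      refine le_trans ?_ h3
      have h4 : 0 ≤ ∑ i, v i ^ 2 := Finset.sum_nonneg fun i _ => sq_nonneg _
      exact mul_le_mul_of_nonneg_right (min_le_left _ _) h4
  have hdiag : ∀ a x i, 0 ≤ CM.hess (Ψ a) x i i ∧ CM.hess (Ψ a) x i i ≤ 1 + K := by
    intro a x i
    have hp : ∀ a, 0 ≤ CM.hess (Ψ a) x i i := by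
      intro a
      simp only [CM.hess, Matrix.of_apply]
      rw [pd_pd_eq (h2 a)]
      exact Pool.Agent.Helper77.MM.fderiv2_nonneg (hsm a) (hcv a) _ _
    refine ⟨hp a, ?_⟩
    have hsum : CM.hess (SS Ψ) x i i = ∑ a, CM.hess (Ψ a) x i i := by
      simp only [CM.hess, Matrix.of_apply]
      rw [pd_pd_eq (cd2 hSS), hfSS]
      exact Finset.sum_congr rfl fun a _ => (pd_pd_eq (h2 a) x i i).symm
    have h3 : CM.hess (Ψ a) x i i ≤ CM.hess (SS Ψ) x i i := by
      rw [hsum]
      exact Finset.single_le_sum (fun a _ => hp a) (Finset.mem_univ a)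
    refine h3.trans ?_
    rw [← hhess x, Matrix.add_apply, Matrix.one_apply_eq]
    have h4 := (hK.2 [i, i] (by simp)).1 x
    have h5 := le_abs_self (CM.pdl [i, i] F x)
    have h6 : CM.hess F x i i = CM.pdl [i, i] F x := rfl
    rw [h6]
    linarith
  have hsymm : ∀ a x i j, CM.hess (Ψ a) x i j = CM.hess (Ψ a) x j i := by
    intro a x i j
    simp only [CM.hess, Matrix.of_apply]
    rw [pd_pd_eq (h2 a), pd_pd_eq (h2 a)]
    have : IsSymmSndFDerivAt ℝ (Ψ a) x := (h2 a).contDiffAt.isSymmSndFDerivAt (by simp)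
    exact this _ _
  have hbd : ∀ a x i j, |CM.pd i (CM.pd j (Ψ a)) x| ≤ 1 + K := by
    intro a x i j
    have e : CM.pd i (CM.pd j (Ψ a)) x = CM.hess (Ψ a) x i j := rfl
    rw [e]
    have hd1 := hdiag a x i
    have hd2 := hdiag a x j
    have hval : ∀ s : ℝ, 0 ≤ CM.hess (Ψ a) x i i + 2 * s * CM.hess (Ψ a) x i j +
        s ^ 2 * CM.hess (Ψ a) x j j := by
      intro s
      have h3 := Pool.Agent.Helper77.MM.fderiv2_nonneg (hsm a) (hcv a) x
        (EuclideanSpace.single i (1 : ℝ) + s • EuclideanSpace.single j (1 : ℝ))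
      simp only [map_add, map_smul, add_apply, smul_apply, smul_eq_mul] at h3
      have e2 := hsymm a x i j
      simp only [CM.hess, Matrix.of_apply] at e2 ⊢
      rw [pd_pd_eq (h2 a), pd_pd_eq (h2 a)] at e2
      rw [pd_pd_eq (h2 a), pd_pd_eq (h2 a), pd_pd_eq (h2 a)]
      rw [← e2] at h3
      linarith
    have h3 := hval 1
    have h4 := hval (-1)
    rw [abs_le]
    constructor <;> nlinarith
  have hmain := h k F ⟨min c 1, K, max R 1, hFOK⟩ N Ψ (1 + K) h2 hev hpsd hbd
    (fun x => by simp only [hF, SS]; ring) σ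
  have e1 : ∀ x : E k, CM.qn x + F x = SS Ψ x := fun x => by simp only [hF]; ring
  have e2 : ∀ (a : Fin N) (x : E k), CM.eul (Ψ a) x + ∑ i, ∑ j, x i * x j *
      CM.hess (Ψ a) x i j = D2 (Ψ a) x := by
    intro a x
    unfold D2 CM.eul
    congr 1
    rw [← quad_form (h2 a) x x]
    refine Finset.sum_congr rfl fun i _ => Finset.sum_congr rfl fun j _ => ?_
    ring
  simp only [e1, e2] at hmain
  unfold Pool.Agent.Helper83.MM.Star JJ
  simp only [one_mul]
  exact hmain

end Pool.Agent.Helper67.MM
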