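import Mathlib

/-! One-dimensional functions with a prescribed second derivative. -/

open MeasureTheory Set Filter Topology
open scoped ContDiff

namespace Pool.Agent.Helper67.MM

/-- The primitive of `q` vanishing at `0`. -/
noncomputable def prim (q : ℝ → ℝ) (t : ℝ) : ℝ := ∫ s in (0 : ℝ)..t, q s

theorem prim_hasDerivAt {q : ℝ → ℝ} (hq : Continuous q) (t : ℝ) :
    HasDerivAt (prim q) (q t) t :=
  intervalIntegral.integral_hasDerivAt_right (hq.intervalIntegrable _ _)
    (hq.stronglyMeasurableAtFilter _ _) hq.continuousAt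

theorem prim_deriv {q : ℝ → ℝ} (hq : Continuous q) : deriv (prim q) = q :=
  funext fun t => (prim_hasDerivAt hq t).deriv

@[simp] theorem prim_zero (q : ℝ → ℝ) : prim q 0 = 0 := by simp [prim]

theorem prim_continuous {q : ℝ → ℝ} (hq : Continuous q) : Continuous (prim q) :=
  continuous_iff_continuousAt.2 fun t => (prim_hasDerivAt hq t).continuousAt

theorem prim_contDiff {q : ℝ → ℝ} (hq : ContDiff ℝ ∞ q) : ContDiff ℝ ∞ (prim q) := by
  rw [contDiff_infty_iff_deriv]
  refine ⟨fun t => (prim_hasDerivAt hq.continuous t).differentiableAt, ?_⟩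
  rw [prim_deriv hq.continuous]
  exact hq

theorem prim_neg_of_even {q : ℝ → ℝ} (he : ∀ t, q (-t) = q t) (t : ℝ) :
    prim q (-t) = -prim q t := by
  unfold prim
  have h := intervalIntegral.integral_comp_neg (a := (0 : ℝ)) (b := t) q
  simp only [he, neg_zero] at h
  rw [h, intervalIntegral.integral_symm]

theorem prim_neg_of_odd {q : ℝ → ℝ} (he : ∀ t, q (-t) = -q t) (t : ℝ) :
    prim q (-t) = prim q t := by
  unfold prim
  have h := intervalIntegral.integral_comp_neg (a := (0 : ℝ)) (b := t) q
  simp only [he, neg_zero, intervalIntegral.integral_neg] at h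
  rw [intervalIntegral.integral_symm]
  linarith

theorem prim_mono {q : ℝ → ℝ} (hq : Continuous q) (h0 : ∀ t, 0 ≤ q t) : Monotone (prim q) :=
  monotone_of_deriv_nonneg (fun t => (prim_hasDerivAt hq t).differentiableAt)
    fun t => by rw [prim_deriv hq]; exact h0 t

theorem prim_convexOn {q : ℝ → ℝ} (hq : Continuous q) (hm : Monotone q) :
    ConvexOn ℝ univ (prim q) := by
  apply MonotoneOn.convexOn_of_deriv convex_univ (prim_continuous hq).continuousOn
  · exact fun t _ => (prim_hasDerivAt hq t).differentiableAt.differentiableWithinAt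
  · rw [prim_deriv hq]
    exact hm.monotoneOn _

theorem prim_add {q r : ℝ → ℝ} (hq : Continuous q) (hr : Continuous r) (t : ℝ) :
    prim (fun s => q s + r s) t = prim q t + prim r t :=
  intervalIntegral.integral_add (hq.intervalIntegrable _ _) (hr.intervalIntegrable _ _)

theorem prim_sub {q r : ℝ → ℝ} (hq : Continuous q) (hr : Continuous r) (t : ℝ) :
    prim (fun s => q s - r s) t = prim q t - prim r t :=
  intervalIntegral.integral_sub (hq.intervalIntegrable _ _) (hr.intervalIntegrable _ _)

theorem prim_const (K t : ℝ) : prim (fun _ => K) t = K * t := by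
  simp [prim, mul_comm]

theorem prim_lin (K t : ℝ) : prim (fun s => K * s) t = K * t ^ 2 / 2 := by
  rw [prim, intervalIntegral.integral_const_mul, integral_id]
  ring

/-- `|prim q t| ≤ K |t|` if `|q| ≤ K`. -/
theorem prim_abs_le {q : ℝ → ℝ} {K : ℝ} (h : ∀ t, |q t| ≤ K) (t : ℝ) : |prim q t| ≤ K * |t| := by
  have := intervalIntegral.norm_integral_le_of_norm_le_const (a := (0 : ℝ)) (b := t)
    (f := q) (C := K) (fun s _ => h s)
  simpa [prim] using this

theorem prim_congr {q r : ℝ → ℝ} {ρ : ℝ} (h : ∀ s, |s| ≤ ρ → q s = r s) {t : ℝ} (ht : |t| ≤ ρ) :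
    prim q t = prim r t := by
  apply intervalIntegral.integral_congr
  intro s hs
  apply h
  rcases le_total 0 t with h0 | h0
  · rw [uIcc_of_le h0] at hs
    rw [abs_of_nonneg hs.1]
    exact hs.2.trans ((le_abs_self t).trans ht)
  · rw [uIcc_of_ge h0] at hs
    rw [abs_of_nonpos hs.2]
    have := neg_abs_le t
    linarith [hs.1]

/-! The convex transition: zero on the left, slope one on the right. -/

/-- The gluing function. -/
noncomputable def glue : ℝ → ℝ := prim Real.smoothTransition

theorem glue_contDiff : ContDiff ℝ ∞ glue := prim_contDiff Real.smoothTransition.contDiff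

theorem glue_mono : Monotone glue :=
  prim_mono Real.smoothTransition.continuous Real.smoothTransition.nonneg

theorem glue_convexOn : ConvexOn ℝ univ glue :=
  prim_convexOn Real.smoothTransition.continuous Real.smoothTransition.monotone

theorem glue_of_nonpos {t : ℝ} (ht : t ≤ 0) : glue t = 0 := by
  have h : ∀ s ∈ uIcc (0 : ℝ) t, Real.smoothTransition s = 0 := by
    intro s hs
    rw [uIcc_of_ge ht] at hs
    exact Real.smoothTransition.zero_of_nonpos hs.2
  unfold glue prim
  rw [intervalIntegral.integral_congr h]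
  simp

theorem glue_nonneg (t : ℝ) : 0 ≤ glue t := by
  rcases le_total t 0 with h | h
  · rw [glue_of_nonpos h]
  · have := glue_mono h
    rwa [glue_of_nonpos le_rfl] at this

theorem glue_of_one_le {t : ℝ} (ht : 1 ≤ t) : glue t = t - 1 + glue 1 := by
  have h : ∫ s in (1 : ℝ)..t, Real.smoothTransition s = t - 1 := by
    have h1 : ∀ s ∈ uIcc (1 : ℝ) t, Real.smoothTransition s = 1 := by
      intro s hs
      rw [uIcc_of_le ht] at hs
      exact Real.smoothTransition.one_of_one_le hs.1
    rw [intervalIntegral.integral_congr h1]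
    simp
  unfold glue prim
  rw [← h, add_comm]
  exact (intervalIntegral.integral_add_adjacent_intervals
    (Real.smoothTransition.continuous.intervalIntegrable _ _)
    (Real.smoothTransition.continuous.intervalIntegrable _ _)).symm

end Pool.Agent.Helper67.MM
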