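import Pool.Agent.Helper83.MM.StmtsB8
import Pool.Agent.Helper67.MM.FinA

/-! Block B8, row CUT. -/

open MeasureTheory Set Filter Topology
open scoped ContDiff

namespace Pool.Agent.Helper67.MM

open Pool.Agent.Helper83.MM

/-- the second derivative -/
noncomputable def qcut (m : ℕ) (ρ s : ℝ) : ℝ :=
  (2 * m * (2 * m - 1) * s ^ (2 * (m - 1))) * (1 - Real.smoothTransition (s ^ 2 / ρ ^ 2 - 1))

theorem qcut_smooth (m : ℕ) (ρ : ℝ) : ContDiff ℝ ∞ (qcut m ρ) := by
  unfold qcut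
  refine ContDiff.mul (by fun_prop) ?_
  refine contDiff_const.sub (Real.smoothTransition.contDiff.comp ?_)
  fun_prop

theorem qcut_even (m : ℕ) (ρ s : ℝ) : qcut m ρ (-s) = qcut m ρ s := by
  unfold qcut
  rw [pow_mul, pow_mul, neg_sq]

theorem qcut_nonneg {m : ℕ} (hm : 1 ≤ m) (ρ s : ℝ) : 0 ≤ qcut m ρ s := by
  unfold qcut
  have h1 : (1 : ℝ) ≤ m := by exact_mod_cast hm
  have h2 : 0 ≤ 1 - Real.smoothTransition (s ^ 2 / ρ ^ 2 - 1) := by
    linarith [Real.smoothTransition.le_one (s ^ 2 / ρ ^ 2 - 1)]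
  have h3 : 0 ≤ s ^ (2 * (m - 1)) := by
    rw [pow_mul]
    positivity
  have h4 : (0 : ℝ) ≤ 2 * m - 1 := by linarith
  positivity

theorem qcut_le {m : ℕ} (hm : 1 ≤ m) {ρ : ℝ} (hρ : 0 < ρ) (s : ℝ) :
    qcut m ρ s ≤ 2 * m * (2 * m - 1) * (2 * ρ ^ 2) ^ (m - 1) := by
  have h1 : (1 : ℝ) ≤ m := by exact_mod_cast hm
  have h4 : (0 : ℝ) ≤ 2 * m - 1 := by linarith
  have hq := Real.smoothTransition.nonneg (s ^ 2 / ρ ^ 2 - 1)
  rcases le_total (s ^ 2) (2 * ρ ^ 2) with h | h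
  · unfold qcut
    have h3 : s ^ (2 * (m - 1)) ≤ (2 * ρ ^ 2) ^ (m - 1) := by
      rw [pow_mul]
      gcongr
    have h5 : 0 ≤ s ^ (2 * (m - 1)) := by
      rw [pow_mul]
      positivity
    calc 2 * m * (2 * m - 1) * s ^ (2 * (m - 1)) *
          (1 - Real.smoothTransition (s ^ 2 / ρ ^ 2 - 1))
        ≤ 2 * m * (2 * m - 1) * s ^ (2 * (m - 1)) * 1 := by
          gcongr
          linarith
      _ ≤ 2 * m * (2 * m - 1) * (2 * ρ ^ 2) ^ (m - 1) := by
          rw [mul_one]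
          gcongr
  · unfold qcut
    have h6 : 1 ≤ s ^ 2 / ρ ^ 2 - 1 := by
      rw [le_sub_iff_add_le, le_div_iff₀ (by positivity)]
      linarith
    rw [Real.smoothTransition.one_of_one_le h6]
    simp only [sub_self, mul_zero]
    positivity

theorem qcut_eq {m : ℕ} {ρ : ℝ} (hρ : 0 < ρ) {s : ℝ} (hs : |s| ≤ ρ) :
    qcut m ρ s = 2 * m * (2 * m - 1) * s ^ (2 * (m - 1)) := by
  unfold qcut
  have h1 : s ^ 2 / ρ ^ 2 - 1 ≤ 0 := by
    rw [sub_nonpos, div_le_one (by positivity), ← sq_abs]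
    gcongr
  rw [Real.smoothTransition.zero_of_nonpos h1]
  ring

theorem st_CUT : ST_CUT := by
  intro m ρ hm hρ
  have hq := qcut_smooth m ρ
  have hq1 : ContDiff ℝ ∞ (prim (qcut m ρ)) := prim_contDiff hq
  have hd1 : deriv (prim (prim (qcut m ρ))) = prim (qcut m ρ) := prim_deriv hq1.continuous
  have hd2 : deriv (prim (qcut m ρ)) = qcut m ρ := prim_deriv hq.continuous
  have hmono : Monotone (prim (qcut m ρ)) := prim_mono hq.continuous (qcut_nonneg hm ρ)
  have heven : ∀ t, prim (prim (qcut m ρ)) (-t) = prim (prim (qcut m ρ)) t :=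
    prim_neg_of_odd (fun t => prim_neg_of_even (qcut_even m ρ) t)
  refine ⟨prim (prim (qcut m ρ)), 2 * m * (2 * m - 1) * (2 * ρ ^ 2) ^ (m - 1),
    prim_contDiff hq1, heven, fun t => ?_, fun t => ?_, fun t => ?_, fun t ht => ?_⟩
  · rw [hd1, hd2]
    exact qcut_nonneg hm ρ t
  · rw [hd1, hd2]
    exact qcut_le hm hρ t
  · have hc := prim_convexOn hq1.continuous hmono
    obtain ⟨-, hcv⟩ := hc
    have h1 := hcv (mem_univ t) (mem_univ (-t)) (by norm_num : (0 : ℝ) ≤ 1 / 2)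
      (by norm_num : (0 : ℝ) ≤ 1 / 2) (by norm_num)
    simp only [smul_eq_mul, heven] at h1
    have h2 : (1 / 2 : ℝ) * t + 1 / 2 * -t = 0 := by ring
    rw [h2, prim_zero] at h1
    linarith
  · have e1 : ∀ s, |s| ≤ ρ → prim (qcut m ρ) s = 2 * m * s ^ (2 * m - 1) := by
      intro s hs
      rw [prim_congr (r := fun s => 2 * m * (2 * m - 1) * s ^ (2 * (m - 1)))
        (fun s hs => qcut_eq hρ hs) hs]
      unfold prim
      rw [intervalIntegral.integral_const_mul, integral_pow]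
      have h5 : 2 * (m - 1) + 1 = 2 * m - 1 := by omega
      have h6 : ((2 * (m - 1) : ℕ) : ℝ) + 1 = 2 * m - 1 := by
        have : ((2 * (m - 1) + 1 : ℕ) : ℝ) = ((2 * m - 1 : ℕ) : ℝ) := by rw [h5]
        rw [Nat.cast_sub (by omega)] at this
        push_cast at this ⊢
        exact this
      have h7 : (2 * (m : ℝ) - 1) ≠ 0 := by
        have : (1 : ℝ) ≤ m := by exact_mod_cast hm
        linarith
      rw [h5, h6, zero_pow (by omega)]
      field_simp
      ring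
    rw [prim_congr e1 ht]
    unfold prim
    rw [intervalIntegral.integral_const_mul, integral_pow]
    have h5 : 2 * m - 1 + 1 = 2 * m := by omega
    have h6 : ((2 * m - 1 : ℕ) : ℝ) + 1 = 2 * m := by
      have : ((2 * m - 1 + 1 : ℕ) : ℝ) = ((2 * m : ℕ) : ℝ) := by rw [h5]
      push_cast at this ⊢
      exact this
    have h7 : (2 * (m : ℝ)) ≠ 0 := by
      have : (1 : ℝ) ≤ m := by exact_mod_cast hm
      positivity
    rw [h5, h6, zero_pow (by omega)]
    field_simp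
    ring

end Pool.Agent.Helper67.MM
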