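import Pool.Agent.Helper83.MM.StmtsB8
import Pool.Agent.Helper86.LP.Section

/-! Block B8, row FINAL: from the even powers to all exponents. -/

open MeasureTheory Set Filter Topology Module
open scoped ENNReal

namespace Pool.Agent.Helper67.MM

open Pool.Agent.Helper83.MM Pool.Agent.Helper86.LP

variable {n : ℕ}

/-- The coordinate functionals of a subspace in an orthonormal basis. -/
theorem exists_coord (H : Submodule ℝ (EuclideanSpace ℝ (Fin n))) :
    ∃ (e : E (finrank ℝ H) ≃ₗᵢ[ℝ] H) (u : Fin n → E (finrank ℝ H)),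
      ∀ y i, ((e y : H) : EuclideanSpace ℝ (Fin n)) i = inner ℝ (u i) y := by
  set e : E (finrank ℝ H) ≃ₗᵢ[ℝ] H := (stdOrthonormalBasis ℝ H).repr.symm with he
  set L : Fin n → E (finrank ℝ H) →L[ℝ] ℝ := fun i =>
    (EuclideanSpace.proj i : EuclideanSpace ℝ (Fin n) →L[ℝ] ℝ).comp
      (H.subtypeL.comp (e.toContinuousLinearEquiv : E (finrank ℝ H) →L[ℝ] H)) with hL
  refine ⟨e, fun i => (InnerProductSpace.toDual ℝ (E (finrank ℝ H))).symm (L i), fun y i => ?_⟩
  rw [InnerProductSpace.toDual_symm_apply]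
  simp [hL]

theorem Phi_eq (H : Submodule ℝ (EuclideanSpace ℝ (Fin n))) {m : ℕ} (hm : 1 ≤ m)
    {e : E (finrank ℝ H) ≃ₗᵢ[ℝ] H} {u : Fin n → E (finrank ℝ H)}
    (hu : ∀ y i, ((e y : H) : EuclideanSpace ℝ (Fin n)) i = inner ℝ (u i) y) (τ : Fin n → ℝ) :
    Phi ((2 * m : ℕ) : ℝ) H τ = ∫⁻ y : E (finrank ℝ H), ENNReal.ofReal
      (Real.exp (-∑ i, (Real.exp (τ i / (2 * m : ℕ)) * inner ℝ (u i) y) ^ (2 * m))) := by
  unfold Phi
  rw [← (e.measurePreserving).lintegral_comp_emb e.toHomeomorph.measurableEmbedding]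
  refine lintegral_congr fun y => ?_
  rw [exp_sum_eq]
  congr 3
  refine Finset.sum_congr rfl fun i _ => ?_
  have hm0 : ((2 * m : ℕ) : ℝ) ≠ 0 := by
    have : 2 * m ≠ 0 := by omega
    exact_mod_cast this
  rw [hu, mul_pow, ← Real.exp_nat_mul, mul_div_cancel₀ _ hm0, Real.rpow_natCast]
  congr 1
  rw [pow_mul, pow_mul, sq_abs]

theorem even_case (h : ST_PLC) {m : ℕ} (hm : 1 ≤ m)
    (H : Submodule ℝ (EuclideanSpace ℝ (Fin n))) :
    IsLogConcave (sectionVolume ((2 * m : ℕ) : ℝ) H) := by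
  have hq : (1 : ℝ) ≤ ((2 * m : ℕ) : ℝ) := by
    have : 1 ≤ 2 * m := by omega
    exact_mod_cast this
  rw [isLogConcave_iff hq]
  intro l l' hl hl' hll a b
  obtain ⟨e, u, hu⟩ := exists_coord H
  rw [Phi_eq H hm hu, Phi_eq H hm hu, Phi_eq H hm hu]
  have h1 := h (finrank ℝ H) n m u (fun i => a i / (2 * m : ℕ)) (fun i => b i / (2 * m : ℕ))
    l l' hm hl hl' hll
  have h2 : ∀ i, (l • a + l' • b) i / ((2 * m : ℕ) : ℝ)
      = l * (a i / (2 * m : ℕ)) + l' * (b i / (2 * m : ℕ)) := by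
    intro i
    simp only [Pi.add_apply, Pi.smul_apply, smul_eq_mul]
    ring
  simp only [h2]
  exact h1

/-- All exponents, all dimensions, all subspaces. -/
theorem st_FINAL (h : ST_PLC) (p : ℝ) (hp : 1 ≤ p)
    (H : Submodule ℝ (EuclideanSpace ℝ (Fin n))) : IsLogConcave (sectionVolume p H) := by
  obtain ⟨m, hm⟩ := exists_nat_gt p
  have h1 : (1 : ℝ) < m := lt_of_le_of_lt hp hm
  have h2 : 1 ≤ m := by
    have : 1 < m := by exact_mod_cast h1
    omega
  refine isLogConcave_of_lt hp (q := ((2 * m : ℕ) : ℝ)) ?_ H (even_case h h2 H)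
  push_cast
  linarith

end Pool.Agent.Helper67.MM
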