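import Pool.Agent.Helper83.MM.StmtsB8

/-! Block B8, row SCL. -/

open MeasureTheory Set Filter Topology Module
open scoped ContDiff

namespace Pool.Agent.Helper67.MM

open Pool.Agent.Helper83.MM

theorem fderiv_smul_comp {k : ℕ} {G : Type*} [NormedAddCommGroup G] [NormedSpace ℝ G]
    {f : E k → G} (hf : Differentiable ℝ f) (r : ℝ) (x : E k) :
    fderiv ℝ (fun x => f (r • x)) x = r • fderiv ℝ f (r • x) := by
  have h1 : HasFDerivAt (fun x : E k => r • x) (r • ContinuousLinearMap.id ℝ (E k)) x :=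
    (hasFDerivAt_id x).const_smul r
  have h2 : HasFDerivAt (fun x => f (r • x))
      ((fderiv ℝ f (r • x)).comp (r • ContinuousLinearMap.id ℝ (E k))) x :=
    (hf (r • x)).hasFDerivAt.comp x h1
  rw [h2.fderiv]
  ext y
  simp

theorem st_SCL : ST_SCL := by
  intro k N Ψ σ r hr hs h
  have hd : ∀ i, Differentiable ℝ (Ψ i) := fun i => (hs i).differentiable (by simp)
  have hd2 : ∀ i, Differentiable ℝ (fderiv ℝ (Ψ i)) := fun i =>
    ((hs i).fderiv_right (m := ∞) (by simp)).differentiable (by simp)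
  have e1 : ∀ i (x : E k), D1 (fun x => Ψ i (r • x)) x = D1 (Ψ i) (r • x) := by
    intro i x
    unfold D1
    rw [fderiv_smul_comp (hd i)]
    simp
  have e2 : ∀ i (x : E k), D2 (fun x => Ψ i (r • x)) x = D2 (Ψ i) (r • x) := by
    intro i x
    unfold D2
    have h1 : fderiv ℝ (fun x => Ψ i (r • x)) = fun x => r • fderiv ℝ (Ψ i) (r • x) :=
      funext fun x => fderiv_smul_comp (hd i) r x
    have h2 : fderiv ℝ (fun x => r • fderiv ℝ (Ψ i) (r • x)) x
        = r • (r • fderiv ℝ (fderiv ℝ (Ψ i)) (r • x)) := by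
      have h3 : Differentiable ℝ fun x : E k => fderiv ℝ (Ψ i) (r • x) :=
        (hd2 i).comp (differentiable_id.const_smul r)
      have h4 : HasFDerivAt (fun x => r • fderiv ℝ (Ψ i) (r • x))
          (r • fderiv ℝ (fun x => fderiv ℝ (Ψ i) (r • x)) x) x :=
        (h3 x).hasFDerivAt.const_smul r
      rw [h4.fderiv, fderiv_smul_comp (hd2 i)]
    rw [h1, h2]
    simp only [smul_apply, map_smul, smul_eq_mul]
  have e3 : ∀ F : E k → ℝ, JJ (SS fun i x => Ψ i (r • x)) (fun x => F (r • x))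
      = |(r ^ finrank ℝ (E k))⁻¹| * JJ (SS Ψ) F := by
    intro F
    unfold JJ
    have := Measure.integral_comp_smul (volume : Measure (E k))
      (fun x => F x * Real.exp (-(SS Ψ x))) r
    rw [smul_eq_mul] at this
    exact this
  unfold Pool.Agent.Helper83.MM.Star at h ⊢
  simp only [e1, e2] at h
  have f1 := e3 (fun _ => 1)
  have f2 := e3 (fun x => (∑ i, σ i * D1 (Ψ i) x) ^ 2)
  have f3 := e3 (fun x => ∑ i, σ i * D1 (Ψ i) x)
  have f4 := e3 (fun x => ∑ i, σ i ^ 2 * D2 (Ψ i) x)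
  simp only at f1 f2 f3 f4
  rw [f1, f2, f3, f4] at h
  set κ : ℝ := |(r ^ finrank ℝ (E k))⁻¹| with hκ
  have hκ0 : 0 < κ := by
    rw [hκ]
    positivity
  have h2 : 0 < κ ^ 2 := by positivity
  by_contra hcon
  push Not at hcon
  nlinarith [mul_lt_mul_of_pos_left hcon h2]

end Pool.Agent.Helper67.MM
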