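import Pool.Agent.Helper67.MM.RLC
import Pool.Agent.Helper67.MM.Final
import Pool.Agent.Helper67.MM.Cut
import Pool.Agent.Helper67.MM.Scl
import Pool.Agent.Helper67.MM.ADP
import Pool.Agent.Helper77.MM.Rst
import Pool.Agent.Helper77.MM.Plc
import Pool.Agent.Helper83.MM.Glu

/-! Block B8: assembly. -/

namespace Pool.Agent.Helper67.MM

open Pool.Agent.Helper86.LP

/-- The reduction layer: the variance inequality for the smooth class gives the log-concavity of
the volumes of all sections of coordinate-scaled `ℓ_p` balls. -/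
theorem asm8 (h : CM.ST_STAR) (p : ℝ) (hp : 1 ≤ p) (n : ℕ)
    (H : Submodule ℝ (EuclideanSpace ℝ (Fin n))) : IsLogConcave (sectionVolume p H) := by
  have h1 : Pool.Agent.Helper83.MM.ST_STAR := st_star h
  have h2 : Pool.Agent.Helper83.MM.ST_RST :=
    Pool.Agent.Helper77.MM.st_RST h1 st_SCL Pool.Agent.Helper83.MM.st_GLU
  exact st_FINAL (Pool.Agent.Helper77.MM.st_PLC (st_RLC h2) st_CUT) p hp H

end Pool.Agent.Helper67.MM
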