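import Pool.Agent.Helper83.MM.StmtsB8

/-! Block B8, row RLC: two derivatives under the integral sign. -/

open MeasureTheory Set Filter Topology
open scoped ContDiff

namespace Pool.Agent.Helper67.MM

open Pool.Agent.Helper83.MM

/-! Gaussian integrability -/

theorem integrable_gauss {k : ℕ} {c : ℝ} (hc : 0 < c) :
    Integrable (fun x : E k => Real.exp (-(c * ‖x‖ ^ 2))) := by
  have h := GaussianFourier.integrable_cexp_neg_mul_sq_norm_add (V := E k) (b := (c : ℂ))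
    (by simpa using hc) 0 0
  refine h.norm.congr (Eventually.of_forall fun x => ?_)
  simp only [Complex.norm_exp]
  congr 1
  have : (-(c : ℂ) * (‖x‖ : ℂ) ^ 2 + 0 * ((inner ℝ (0 : E k) x : ℝ) : ℂ))
      = ((-(c * ‖x‖ ^ 2) : ℝ) : ℂ) := by
    push_cast
    ring
  rw [this, Complex.ofReal_re]

theorem poly_exp_bound {c : ℝ} (hc : 0 < c) (n : ℕ) :
    ∃ C : ℝ, 0 ≤ C ∧ ∀ y : ℝ, 0 ≤ y → (1 + y) ^ n * Real.exp (-(c * y)) ≤
      C * Real.exp (-(c / 2 * y)) := by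
  refine ⟨n.factorial / (c / 2) ^ n * Real.exp (c / 2), by positivity, fun y hy => ?_⟩
  have h := Real.pow_div_factorial_le_exp (c / 2 * (1 + y)) (by positivity) n
  have hf : (0 : ℝ) < n.factorial := by positivity
  have hp : (0 : ℝ) < (c / 2) ^ n := by positivity
  have h2 : (1 + y) ^ n ≤ n.factorial / (c / 2) ^ n * Real.exp (c / 2 * (1 + y)) := by
    rw [div_le_iff₀ hf, mul_pow] at h
    rw [div_mul_eq_mul_div, le_div_iff₀ hp]
    linarith
  calc (1 + y) ^ n * Real.exp (-(c * y))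
      ≤ (n.factorial / (c / 2) ^ n * Real.exp (c / 2 * (1 + y))) * Real.exp (-(c * y)) := by
        gcongr
    _ = n.factorial / (c / 2) ^ n * Real.exp (c / 2) * Real.exp (-(c / 2 * y)) := by
        rw [mul_assoc, mul_assoc, ← Real.exp_add, ← Real.exp_add]
        ring_nf

theorem integrable_poly_gauss {k : ℕ} {c : ℝ} (hc : 0 < c) (n : ℕ) :
    Integrable (fun x : E k => (1 + ‖x‖ ^ 2) ^ n * Real.exp (-(c * ‖x‖ ^ 2))) := by
  obtain ⟨C, hC0, hC⟩ := poly_exp_bound hc n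
  refine ((integrable_gauss (k := k) (half_pos hc)).const_mul C).mono' (by fun_prop) ?_
  refine Eventually.of_forall fun x => ?_
  rw [Real.norm_of_nonneg (by positivity)]
  have := hC (‖x‖ ^ 2) (by positivity)
  simpa [div_mul_eq_mul_div] using this

/-! Elementary facts on the family -/

theorem fam_deriv_zero {N : ℕ} {K : ℝ} {ψ : Fin N → ℝ → ℝ} (h : Fam K ψ) (i : Fin N) :
    deriv (ψ i) 0 = 0 := by
  have h1 : deriv (fun t => ψ i (-t)) 0 = -deriv (ψ i) (-0) := by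
    rw [deriv_comp_neg]
  have h2 : (fun t => ψ i (-t)) = ψ i := funext fun t => h.even i t
  rw [h2, neg_zero] at h1
  linarith

theorem fam_diff {N : ℕ} {K : ℝ} {ψ : Fin N → ℝ → ℝ} (h : Fam K ψ) (i : Fin N) :
    Differentiable ℝ (ψ i) := (h.smooth i).differentiable (by simp)

theorem fam_diff2 {N : ℕ} {K : ℝ} {ψ : Fin N → ℝ → ℝ} (h : Fam K ψ) (i : Fin N) :
    Differentiable ℝ (deriv (ψ i)) :=
  ((contDiff_infty_iff_deriv.1 (h.smooth i)).2).differentiable (by simp)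

theorem fam_cont1 {N : ℕ} {K : ℝ} {ψ : Fin N → ℝ → ℝ} (h : Fam K ψ) (i : Fin N) :
    Continuous (deriv (ψ i)) := (fam_diff2 h i).continuous

theorem fam_cont2 {N : ℕ} {K : ℝ} {ψ : Fin N → ℝ → ℝ} (h : Fam K ψ) (i : Fin N) :
    Continuous (deriv (deriv (ψ i))) :=
  (contDiff_infty_iff_deriv.1 ((contDiff_infty_iff_deriv.1 (h.smooth i)).2)).2.continuous

theorem fam_abs2 {N : ℕ} {K : ℝ} {ψ : Fin N → ℝ → ℝ} (h : Fam K ψ) (i : Fin N) (t : ℝ) :
    |deriv (deriv (ψ i)) t| ≤ K := by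
  rw [abs_of_nonneg (h.lo i t)]
  exact h.hi i t

theorem fam_abs1 {N : ℕ} {K : ℝ} {ψ : Fin N → ℝ → ℝ} (h : Fam K ψ) (i : Fin N) (t : ℝ) :
    |deriv (ψ i) t| ≤ K * |t| := by
  have h1 := Convex.norm_image_sub_le_of_norm_deriv_le (f := deriv (ψ i)) (s := univ) (x := 0)
    (y := t) (C := K) (fun x _ => fam_diff2 h i x) (fun x _ => fam_abs2 h i x) convex_univ
    (mem_univ _) (mem_univ _)
  rw [fam_deriv_zero h i] at h1
  simpa using h1

theorem fam_convex {N : ℕ} {K : ℝ} {ψ : Fin N → ℝ → ℝ} (h : Fam K ψ) (i : Fin N) :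
    ConvexOn ℝ univ (ψ i) :=
  convexOn_univ_of_deriv2_nonneg (fam_diff h i) (fam_diff2 h i) (h.lo i)

theorem fam_min {N : ℕ} {K : ℝ} {ψ : Fin N → ℝ → ℝ} (h : Fam K ψ) (i : Fin N) (t : ℝ) :
    ψ i 0 ≤ ψ i t := by
  obtain ⟨-, hcv⟩ := fam_convex h i
  have h1 := hcv (mem_univ t) (mem_univ (-t)) (by norm_num : (0 : ℝ) ≤ 1 / 2)
    (by norm_num : (0 : ℝ) ≤ 1 / 2) (by norm_num)
  simp only [smul_eq_mul, h.even i t] at h1
  have h2 : (1 / 2 : ℝ) * t + 1 / 2 * -t = 0 := by ring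
  rw [h2] at h1
  linarith

/-! The path -/

section path

variable {k N : ℕ} (u : Fin N → E k) (ψ : Fin N → ℝ → ℝ) (c : ℝ) (a σ : Fin N → ℝ)

/-- the `i`-th argument -/
noncomputable def pp (i : Fin N) (t : ℝ) (x : E k) : ℝ :=
  Real.exp (a i + t * σ i) * inner ℝ (u i) x

/-- the potential along the path -/
noncomputable def S0 (t : ℝ) (x : E k) : ℝ := ∑ i, ψ i (pp u a σ i t x) + c / 2 * ‖x‖ ^ 2

/-- its first derivative -/
noncomputable def S1 (t : ℝ) (x : E k) : ℝ :=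
  ∑ i, σ i * (pp u a σ i t x * deriv (ψ i) (pp u a σ i t x))

/-- its second derivative -/
noncomputable def S2 (t : ℝ) (x : E k) : ℝ :=
  ∑ i, σ i ^ 2 * (pp u a σ i t x * deriv (ψ i) (pp u a σ i t x) +
    pp u a σ i t x ^ 2 * deriv (deriv (ψ i)) (pp u a σ i t x))

variable {u ψ c a σ}

theorem pp_hasDeriv (i : Fin N) (t : ℝ) (x : E k) :
    HasDerivAt (fun t => pp u a σ i t x) (σ i * pp u a σ i t x) t := by
  unfold pp
  have h1 : HasDerivAt (fun t : ℝ => a i + t * σ i) (σ i) t := by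
    simpa using ((hasDerivAt_id t).mul_const (σ i)).const_add (a i)
  have h2 := (h1.exp).mul_const (inner ℝ (u i) x : ℝ)
  refine h2.congr_deriv ?_
  ring

theorem S0_hasDeriv {K : ℝ} (h : Fam K ψ) (t : ℝ) (x : E k) :
    HasDerivAt (fun t => S0 u ψ c a σ t x) (S1 u ψ a σ t x) t := by
  unfold S0 S1
  apply HasDerivAt.add_const
  apply HasDerivAt.fun_sum
  intro i _
  have h1 := ((fam_diff h i (pp u a σ i t x)).hasDerivAt).comp t (pp_hasDeriv i t x)
  refine h1.congr_deriv ?_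
  ring

theorem S1_hasDeriv {K : ℝ} (h : Fam K ψ) (t : ℝ) (x : E k) :
    HasDerivAt (fun t => S1 u ψ a σ t x) (S2 u ψ a σ t x) t := by
  unfold S1 S2
  apply HasDerivAt.fun_sum
  intro i _
  have h1 := ((fam_diff2 h i (pp u a σ i t x)).hasDerivAt).comp t (pp_hasDeriv i t x)
  have h2 := ((pp_hasDeriv (u := u) (a := a) (σ := σ) i t x).mul h1).const_mul (σ i)
  refine h2.congr_deriv ?_
  simp only [Function.comp_def]
  ring

theorem pp_cont (i : Fin N) (t : ℝ) : Continuous (fun x : E k => pp u a σ i t x) := by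
  unfold pp
  fun_prop

theorem S0_cont {K : ℝ} (h : Fam K ψ) (t : ℝ) : Continuous (fun x : E k => S0 u ψ c a σ t x) := by
  unfold S0
  refine Continuous.add (continuous_finsetSum _ fun i _ => ?_) (by fun_prop)
  exact (fam_diff h i).continuous.comp (pp_cont i t)

theorem S1_cont {K : ℝ} (h : Fam K ψ) (t : ℝ) : Continuous (fun x : E k => S1 u ψ a σ t x) := by
  unfold S1
  refine continuous_finsetSum _ fun i _ => ?_
  exact continuous_const.mul ((pp_cont i t).mul ((fam_cont1 h i).comp (pp_cont i t)))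

theorem S2_cont {K : ℝ} (h : Fam K ψ) (t : ℝ) : Continuous (fun x : E k => S2 u ψ a σ t x) := by
  unfold S2
  refine continuous_finsetSum _ fun i _ => ?_
  exact continuous_const.mul (((pp_cont i t).mul ((fam_cont1 h i).comp (pp_cont i t))).add
    (((pp_cont i t).pow 2).mul ((fam_cont2 h i).comp (pp_cont i t))))

/-- a uniform bound on the arguments for bounded times -/
theorem pp_bound (i : Fin N) {t T : ℝ} (ht : |t| ≤ T) (x : E k) :
    pp u a σ i t x ^ 2 ≤ (Real.exp (|a i| + T * |σ i|) * ‖u i‖) ^ 2 * (1 + ‖x‖ ^ 2) := by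
  have h1 : |pp u a σ i t x| ≤ Real.exp (|a i| + T * |σ i|) * ‖u i‖ * ‖x‖ := by
    unfold pp
    rw [abs_mul, abs_of_pos (Real.exp_pos _), mul_assoc]
    have h2 : Real.exp (a i + t * σ i) ≤ Real.exp (|a i| + T * |σ i|) := by
      apply Real.exp_le_exp.2
      have h3 : t * σ i ≤ T * |σ i| := by
        calc t * σ i ≤ |t * σ i| := le_abs_self _
          _ = |t| * |σ i| := abs_mul _ _
          _ ≤ T * |σ i| := by gcongr
      linarith [le_abs_self (a i)]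
    have h3 : |(inner ℝ (u i) x : ℝ)| ≤ ‖u i‖ * ‖x‖ := abs_real_inner_le_norm _ _
    gcongr
  have h2 : pp u a σ i t x ^ 2 ≤ (Real.exp (|a i| + T * |σ i|) * ‖u i‖ * ‖x‖) ^ 2 := by
    rw [← sq_abs (pp u a σ i t x)]
    gcongr
  calc pp u a σ i t x ^ 2 ≤ (Real.exp (|a i| + T * |σ i|) * ‖u i‖ * ‖x‖) ^ 2 := h2
    _ = (Real.exp (|a i| + T * |σ i|) * ‖u i‖) ^ 2 * ‖x‖ ^ 2 := by ring
    _ ≤ _ := by
      gcongr
      linarith

theorem fam_pd {K : ℝ} (h : Fam K ψ) (i : Fin N) (p : ℝ) :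
    |p * deriv (ψ i) p| ≤ K * p ^ 2 := by
  rw [abs_mul]
  calc |p| * |deriv (ψ i) p| ≤ |p| * (K * |p|) := by
        gcongr
        exact fam_abs1 h i p
    _ = K * p ^ 2 := by rw [← sq_abs p]; ring

theorem fam_pdd {K : ℝ} (h : Fam K ψ) (i : Fin N) (p : ℝ) :
    |p ^ 2 * deriv (deriv (ψ i)) p| ≤ K * p ^ 2 := by
  rw [abs_mul, abs_of_nonneg (sq_nonneg p)]
  have := fam_abs2 h i p
  nlinarith [sq_nonneg p]

theorem S1_bound {K : ℝ} (h : Fam K ψ) (T : ℝ) : ∃ M, 0 ≤ M ∧ ∀ t, |t| ≤ T → ∀ x : E k,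
    |S1 u ψ a σ t x| ≤ M * (1 + ‖x‖ ^ 2) := by
  refine ⟨∑ i, |σ i| * (|K| * (Real.exp (|a i| + T * |σ i|) * ‖u i‖) ^ 2),
    Finset.sum_nonneg fun i _ => by positivity, fun t ht x => ?_⟩
  unfold S1
  rw [Finset.sum_mul]
  refine (Finset.abs_sum_le_sum_abs _ _).trans (Finset.sum_le_sum fun i _ => ?_)
  rw [abs_mul, mul_assoc]
  gcongr
  refine (fam_pd h i _).trans ?_
  calc K * pp u a σ i t x ^ 2 ≤ |K| * pp u a σ i t x ^ 2 := by
        gcongr
        exact le_abs_self K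
    _ ≤ |K| * ((Real.exp (|a i| + T * |σ i|) * ‖u i‖) ^ 2 * (1 + ‖x‖ ^ 2)) := by
        gcongr
        exact pp_bound i ht x
    _ = _ := by ring

theorem S2_bound {K : ℝ} (h : Fam K ψ) (T : ℝ) : ∃ M, 0 ≤ M ∧ ∀ t, |t| ≤ T → ∀ x : E k,
    |S2 u ψ a σ t x| ≤ M * (1 + ‖x‖ ^ 2) := by
  refine ⟨∑ i, σ i ^ 2 * (2 * |K| * (Real.exp (|a i| + T * |σ i|) * ‖u i‖) ^ 2),
    Finset.sum_nonneg fun i _ => by positivity, fun t ht x => ?_⟩
  unfold S2
  rw [Finset.sum_mul]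
  refine (Finset.abs_sum_le_sum_abs _ _).trans (Finset.sum_le_sum fun i _ => ?_)
  rw [abs_mul, abs_of_nonneg (sq_nonneg (σ i)), mul_assoc]
  gcongr
  refine (abs_add_le _ _).trans ?_
  have h1 := fam_pd h i (pp u a σ i t x)
  have h2 := fam_pdd h i (pp u a σ i t x)
  have h3 : K * pp u a σ i t x ^ 2 ≤ |K| * pp u a σ i t x ^ 2 := by
    gcongr
    exact le_abs_self K
  have h4 : |K| * pp u a σ i t x ^ 2
      ≤ |K| * ((Real.exp (|a i| + T * |σ i|) * ‖u i‖) ^ 2 * (1 + ‖x‖ ^ 2)) := by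
    gcongr
    exact pp_bound i ht x
  calc _ ≤ |K| * ((Real.exp (|a i| + T * |σ i|) * ‖u i‖) ^ 2 * (1 + ‖x‖ ^ 2)) +
        |K| * ((Real.exp (|a i| + T * |σ i|) * ‖u i‖) ^ 2 * (1 + ‖x‖ ^ 2)) := by linarith
    _ = _ := by ring

theorem exp_S0_bound {K : ℝ} (h : Fam K ψ) (t : ℝ) (x : E k) :
    Real.exp (-S0 u ψ c a σ t x) ≤
      Real.exp (-∑ i, ψ i 0) * Real.exp (-(c / 2 * ‖x‖ ^ 2)) := by
  rw [← Real.exp_add]
  apply Real.exp_le_exp.2
  unfold S0
  have : ∑ i, ψ i 0 ≤ ∑ i, ψ i (pp u a σ i t x) :=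
    Finset.sum_le_sum fun i _ => fam_min h i _
  linarith

/-- the three integrands -/
noncomputable def F0 (u : Fin N → E k) (ψ : Fin N → ℝ → ℝ) (c : ℝ) (a σ : Fin N → ℝ) (t : ℝ)
    (x : E k) : ℝ := Real.exp (-S0 u ψ c a σ t x)

/-- first derivative of the integrand -/
noncomputable def F1 (u : Fin N → E k) (ψ : Fin N → ℝ → ℝ) (c : ℝ) (a σ : Fin N → ℝ) (t : ℝ)
    (x : E k) : ℝ := -S1 u ψ a σ t x * Real.exp (-S0 u ψ c a σ t x)

/-- second derivative of the integrand -/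
noncomputable def F2 (u : Fin N → E k) (ψ : Fin N → ℝ → ℝ) (c : ℝ) (a σ : Fin N → ℝ) (t : ℝ)
    (x : E k) : ℝ :=
  (S1 u ψ a σ t x ^ 2 - S2 u ψ a σ t x) * Real.exp (-S0 u ψ c a σ t x)

theorem F0_hasDeriv {K : ℝ} (h : Fam K ψ) (t : ℝ) (x : E k) :
    HasDerivAt (fun t => F0 u ψ c a σ t x) (F1 u ψ c a σ t x) t := by
  unfold F0 F1
  refine ((S0_hasDeriv h t x).fun_neg.exp).congr_deriv ?_
  ring

theorem F1_hasDeriv {K : ℝ} (h : Fam K ψ) (t : ℝ) (x : E k) :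
    HasDerivAt (fun t => F1 u ψ c a σ t x) (F2 u ψ c a σ t x) t := by
  unfold F1 F2
  refine ((S1_hasDeriv h t x).fun_neg.mul ((S0_hasDeriv h t x).fun_neg.exp)).congr_deriv ?_
  ring

theorem F0_cont {K : ℝ} (h : Fam K ψ) (t : ℝ) : Continuous (fun x : E k => F0 u ψ c a σ t x) :=
  Real.continuous_exp.comp (S0_cont h t).neg

theorem F1_cont {K : ℝ} (h : Fam K ψ) (t : ℝ) : Continuous (fun x : E k => F1 u ψ c a σ t x) :=
  (S1_cont h t).neg.mul (F0_cont h t)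

theorem F2_cont {K : ℝ} (h : Fam K ψ) (t : ℝ) : Continuous (fun x : E k => F2 u ψ c a σ t x) :=
  (((S1_cont h t).pow 2).sub (S2_cont h t)).mul (F0_cont h t)

theorem F_bound {K : ℝ} (hc : 0 < c) (h : Fam K ψ) (T : ℝ) : ∃ B : E k → ℝ, Integrable B ∧
    ∀ t, |t| ≤ T → ∀ x : E k, |F0 u ψ c a σ t x| ≤ B x ∧ |F1 u ψ c a σ t x| ≤ B x ∧
      |F2 u ψ c a σ t x| ≤ B x ∧ |S1 u ψ a σ t x ^ 2 * F0 u ψ c a σ t x| ≤ B x ∧
      |S2 u ψ a σ t x * F0 u ψ c a σ t x| ≤ B x := by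
  obtain ⟨M1, hM1, h1⟩ := S1_bound (u := u) (a := a) (σ := σ) h T
  obtain ⟨M2, hM2, h2⟩ := S2_bound (u := u) (a := a) (σ := σ) h T
  set D : ℝ := Real.exp (-∑ i, ψ i 0) with hD
  have hD0 : 0 < D := Real.exp_pos _
  refine ⟨fun x => (1 + M1 + M1 ^ 2 + M2) * D *
    ((1 + ‖x‖ ^ 2) ^ 2 * Real.exp (-(c / 2 * ‖x‖ ^ 2))),
    (integrable_poly_gauss (half_pos hc) 2).const_mul _, fun t ht x => ?_⟩
  have he := exp_S0_bound (u := u) (c := c) (a := a) (σ := σ) h t x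
  have he0 := Real.exp_pos (-S0 u ψ c a σ t x)
  set e : ℝ := Real.exp (-S0 u ψ c a σ t x)
  set G : ℝ := Real.exp (-(c / 2 * ‖x‖ ^ 2)) with hG
  have hG0 : 0 < G := Real.exp_pos _
  have hy : 1 ≤ 1 + ‖x‖ ^ 2 := by nlinarith [sq_nonneg ‖x‖]
  set y : ℝ := 1 + ‖x‖ ^ 2
  have hy2 : 1 ≤ y ^ 2 := by nlinarith
  have hyy : y ≤ y ^ 2 := by nlinarith
  have key : ∀ A : ℝ, |A| ≤ (1 + M1 + M1 ^ 2 + M2) * y ^ 2 →
      |A * e| ≤ (1 + M1 + M1 ^ 2 + M2) * D * (y ^ 2 * G) := by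
    intro A hA
    rw [abs_mul, abs_of_pos he0]
    calc |A| * e ≤ ((1 + M1 + M1 ^ 2 + M2) * y ^ 2) * (D * G) := by gcongr
      _ = _ := by ring
  have h3 := h1 t ht x
  have h4 := h2 t ht x
  have h5 : S1 u ψ a σ t x ^ 2 ≤ (M1 * y) ^ 2 := by
    rw [← sq_abs]
    gcongr
  have hp1 : 0 ≤ M1 * y ^ 2 := by positivity
  have hp2 : 0 ≤ M1 ^ 2 * y ^ 2 := by positivity
  have hp3 : 0 ≤ M2 * y ^ 2 := by positivity
  refine ⟨?_, ?_, ?_, ?_, ?_⟩
  · have := key 1 (by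
      rw [abs_one]
      nlinarith [sq_nonneg M1, mul_nonneg hM1 (by positivity : (0 : ℝ) ≤ y ^ 2),
        mul_nonneg (sq_nonneg M1) (by positivity : (0 : ℝ) ≤ y ^ 2),
        mul_nonneg hM2 (by positivity : (0 : ℝ) ≤ y ^ 2)])
    rw [one_mul] at this
    exact this
  · apply key
    rw [abs_neg]
    have h3 := h1 t ht x
    nlinarith [sq_nonneg M1, mul_le_mul_of_nonneg_left hyy hM1,
      mul_nonneg (sq_nonneg M1) (by positivity : (0 : ℝ) ≤ y ^ 2),
      mul_nonneg hM2 (by positivity : (0 : ℝ) ≤ y ^ 2)]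
  · apply key
    have h6 : |S1 u ψ a σ t x ^ 2 - S2 u ψ a σ t x| ≤ S1 u ψ a σ t x ^ 2 + |S2 u ψ a σ t x| := by
      refine (abs_sub _ _).trans ?_
      rw [abs_of_nonneg (sq_nonneg _)]
    nlinarith [mul_le_mul_of_nonneg_left hyy hM2, mul_nonneg hM1 (by positivity : (0 : ℝ) ≤ y ^ 2)]
  · apply key
    rw [abs_of_nonneg (sq_nonneg _)]
    nlinarith
  · apply key
    nlinarith [mul_le_mul_of_nonneg_left hyy hM2]

theorem F_int {K : ℝ} (hc : 0 < c) (h : Fam K ψ) (t : ℝ) :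
    Integrable (F0 u ψ c a σ t) ∧ Integrable (F1 u ψ c a σ t) ∧ Integrable (F2 u ψ c a σ t) ∧
      Integrable (fun x => S1 u ψ a σ t x ^ 2 * F0 u ψ c a σ t x) ∧
      Integrable (fun x => S2 u ψ a σ t x * F0 u ψ c a σ t x) := by
  obtain ⟨B, hB, hb⟩ := F_bound (u := u) (a := a) (σ := σ) hc h |t|
  have hb' := hb t le_rfl
  exact ⟨hB.mono' (F0_cont h t).aestronglyMeasurable (Eventually.of_forall fun x => (hb' x).1),
    hB.mono' (F1_cont h t).aestronglyMeasurable (Eventually.of_forall fun x => (hb' x).2.1),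
    hB.mono' (F2_cont h t).aestronglyMeasurable (Eventually.of_forall fun x => (hb' x).2.2.1),
    hB.mono' (((S1_cont h t).pow 2).mul (F0_cont h t)).aestronglyMeasurable
      (Eventually.of_forall fun x => (hb' x).2.2.2.1),
    hB.mono' ((S2_cont h t).mul (F0_cont h t)).aestronglyMeasurable
      (Eventually.of_forall fun x => (hb' x).2.2.2.2)⟩

theorem I0_hasDeriv {K : ℝ} (hc : 0 < c) (h : Fam K ψ) (t : ℝ) :
    HasDerivAt (fun t => ∫ x, F0 u ψ c a σ t x) (∫ x, F1 u ψ c a σ t x) t := by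
  obtain ⟨B, hB, hb⟩ := F_bound (u := u) (a := a) (σ := σ) hc h (|t| + 1)
  have hs : Metric.ball t 1 ∈ 𝓝 t := Metric.ball_mem_nhds t one_pos
  refine (hasDerivAt_integral_of_dominated_loc_of_deriv_le (bound := B) hs
    (Eventually.of_forall fun s => (F0_cont h s).aestronglyMeasurable) (F_int hc h t).1
    (F1_cont h t).aestronglyMeasurable ?_ hB ?_).2
  · refine Eventually.of_forall fun x s hs => (hb s ?_ x).2.1
    have h1 : |s - t| < 1 := by simpa [Real.dist_eq] using hs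
    have h2 : |s| ≤ |s - t| + |t| := by
      have := abs_add_le (s - t) t
      simpa using this
    linarith
  · exact Eventually.of_forall fun x s _ => F0_hasDeriv h s x

theorem I1_hasDeriv {K : ℝ} (hc : 0 < c) (h : Fam K ψ) (t : ℝ) :
    HasDerivAt (fun t => ∫ x, F1 u ψ c a σ t x) (∫ x, F2 u ψ c a σ t x) t := by
  obtain ⟨B, hB, hb⟩ := F_bound (u := u) (a := a) (σ := σ) hc h (|t| + 1)
  have hs : Metric.ball t 1 ∈ 𝓝 t := Metric.ball_mem_nhds t one_pos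
  refine (hasDerivAt_integral_of_dominated_loc_of_deriv_le (bound := B) hs
    (Eventually.of_forall fun s => (F1_cont h s).aestronglyMeasurable) (F_int hc h t).2.1
    (F2_cont h t).aestronglyMeasurable ?_ hB ?_).2
  · refine Eventually.of_forall fun x s hs => (hb s ?_ x).2.2.1
    have h1 : |s - t| < 1 := by simpa [Real.dist_eq] using hs
    have h2 : |s| ≤ |s - t| + |t| := by
      have := abs_add_le (s - t) t
      simpa using this
    linarith
  · exact Eventually.of_forall fun x s _ => F1_hasDeriv h s x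

theorem I0_pos {K : ℝ} (hc : 0 < c) (h : Fam K ψ) (t : ℝ) : 0 < ∫ x, F0 u ψ c a σ t x :=
  integral_exp_pos (F_int hc h t).1

theorem key_ineq (hR : ST_RST) {K : ℝ} (hc : 0 < c) (h : Fam K ψ) (t : ℝ) :
    (∫ x, F2 u ψ c a σ t x) * (∫ x, F0 u ψ c a σ t x) - (∫ x, F1 u ψ c a σ t x) ^ 2 ≤ 0 := by
  have h0 := hR k N (fun i => Real.exp (a i + t * σ i) • u i) ψ c K σ hc h
  have e0 : ∀ x : E k, WR (fun i => Real.exp (a i + t * σ i) • u i) ψ c x
      = S0 u ψ c a σ t x := by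
    intro x
    simp only [WR, S0, pp, real_inner_smul_left]
  simp only [JJ, e0, real_inner_smul_left, one_mul] at h0
  obtain ⟨i0, i1, i2, i3, i4⟩ := F_int (u := u) (a := a) (σ := σ) hc h t
  have hF2 : ∫ x, F2 u ψ c a σ t x = (∫ x, S1 u ψ a σ t x ^ 2 * F0 u ψ c a σ t x) -
      ∫ x, S2 u ψ a σ t x * F0 u ψ c a σ t x := by
    rw [← integral_sub i3 i4]
    refine integral_congr_ae (Eventually.of_forall fun x => ?_)
    simp only [F2, F0]
    ring
  have hF1 : ∫ x, F1 u ψ c a σ t x = -∫ x, S1 u ψ a σ t x * F0 u ψ c a σ t x := by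
    rw [← integral_neg]
    refine integral_congr_ae (Eventually.of_forall fun x => ?_)
    simp only [F1, F0]
    ring
  rw [hF2, hF1]
  simp only [F0, S1, S2, pp] at h0 ⊢
  nlinarith [h0]

end path

theorem st_RLC (hR : ST_RST) : ST_RLC := by
  intro k N u ψ c K a b l m hc h hl hm hlm
  set σ : Fin N → ℝ := fun i => b i - a i with hσ
  set f : ℝ → ℝ := fun t => ∫ x, F0 u ψ c a σ t x with hf
  set f1 : ℝ → ℝ := fun t => ∫ x, F1 u ψ c a σ t x with hf1
  set f2 : ℝ → ℝ := fun t => ∫ x, F2 u ψ c a σ t x with hf2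
  have hpos : ∀ t, 0 < f t := fun t => I0_pos hc h t
  have d0 : ∀ t, HasDerivAt f (f1 t) t := fun t => I0_hasDeriv hc h t
  have d1 : ∀ t, HasDerivAt f1 (f2 t) t := fun t => I1_hasDeriv hc h t
  have g0 : ∀ t, HasDerivAt (fun t => Real.log (f t)) (f1 t / f t) t :=
    fun t => (d0 t).log (hpos t).ne'
  have g1 : ∀ t, HasDerivAt (fun t => f1 t / f t) ((f2 t * f t - f1 t * f1 t) / f t ^ 2) t :=
    fun t => (d1 t).div (d0 t) (hpos t).ne'
  have hd : deriv (fun t => Real.log (f t)) = fun t => f1 t / f t :=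
    funext fun t => (g0 t).deriv
  have hconc : ConcaveOn ℝ univ (fun t => Real.log (f t)) := by
    apply concaveOn_univ_of_deriv2_nonpos
    · exact fun t => (g0 t).differentiableAt
    · rw [hd]
      exact fun t => (g1 t).differentiableAt
    · intro t
      simp only [Function.iterate_succ, Function.iterate_zero, Function.comp_apply, id_eq]
      rw [hd, (g1 t).deriv]
      apply div_nonpos_of_nonpos_of_nonneg _ (sq_nonneg _)
      have := key_ineq (u := u) (a := a) (σ := σ) hR hc h t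
      rw [pow_two] at this
      exact this
  obtain ⟨-, hcc⟩ := hconc
  have h2 := hcc (mem_univ 0) (mem_univ 1) hl.le hm.le hlm
  simp only [smul_eq_mul, mul_zero, mul_one, zero_add] at h2
  have ea : GG u ψ c a = f 0 := by
    simp [GG, hf, F0, S0, pp]
  have eb : GG u ψ c b = f 1 := by
    simp [GG, hf, F0, S0, pp, hσ]
  have em : GG u ψ c (fun i => l * a i + m * b i) = f m := by
    have h3 : ∀ i, l * a i + m * b i = a i + m * (b i - a i) := by
      intro i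
      have : l = 1 - m := by linarith
      rw [this]
      ring
    simp only [GG, hf, F0, S0, pp, hσ, h3]
  rw [ea, eb, em]
  have h4 := Real.exp_le_exp.2 h2
  rw [Real.exp_log (hpos m), Real.exp_add] at h4
  rw [Real.rpow_def_of_pos (hpos 0), Real.rpow_def_of_pos (hpos 1)]
  simpa only [mul_comm] using h4

end Pool.Agent.Helper67.MM
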